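import Mathlib
import Pool.Agent.Q251.AP.Final

set_option autoImplicit false

/-!
# Sums of three antipalindromic numbers in base 3

`Q251.AP.Antipal n` says that `n` is antipalindromic in base 3. The theorem settles question Q1 of
MP_8ef15a_nt in the affirmative, and also shows that the five listed numbers really are exceptions.

Method: a number `N` with `L` digits is read from both ends at once. For fixed lengths
`L - o1, L - o2, L - o3` of the three summands, a finite automaton with states `(l, V)` (the carry
from the low end, and the weighted balance at the high end) follows the choice of the outer digits
of the summands. Finite families of sets of states which are closed under all nine pairs of outer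
digits, and which accept every final block of four or five digits of the right parity, show that
all numbers whose outer digits lead into such a set are sums. A finite tree of initial words
reduces every number with at least six digits to such a family or to one of 172 explicit numbers.
-/

namespace Pool.Agent.Results.MP_8ef15a_nt.ExactlyFive

open Q251.AP

theorem result (N : ℕ) (hN : 0 < N) :
    (Antipal N ∨ (∃ a b, Antipal a ∧ Antipal b ∧ a + b = N) ∨
      ∃ a b c, Antipal a ∧ Antipal b ∧ Antipal c ∧ a + b + c = N) ↔
    N ∉ ({24, 37, 49, 117, 421} : Finset ℕ) :=
  rep_iff hN

end Pool.Agent.Results.MP_8ef15a_nt.ExactlyFive
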